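import Pool.Agent.Helper40.NSK.Gdi
import Pool.Agent.Helper52.SL.Sel
import Pool.Agent.Helper52.SL.Pob
import Pool.Agent.Helper3.SG.Win
import Pool.Agent.Helper3.PR.Ful
import Pool.Agent.Helper59.EV.Rich

/-! THE TOP OF THE CHAIN FOR `R^4`: the selected systems (truncations of good systems at a left density point of the
levels at which points are deficient), the case distinction, and the assembly of `EK 3`. -/

set_option autoImplicit false

namespace Pool.Agent.Helper40.NSK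

open Finset Filter Topology Pool.Agent.Helper69.RK Pool.Agent.Helper31.EC Pool.Agent.Helper31.EC.Sp
open Pool.Agent.Helper40.EL Pool.Agent.Helper42.NS Pool.Agent.Helper52.KP Pool.Agent.Helper52.SL
open Pool.Agent.Helper80.MX Pool.Agent.Helper3.SG Pool.Agent.Helper3.LF Pool.Agent.Helper3.PR
open Pool.Agent.Helper89.LX Pool.Agent.Helper89.LS MeasureTheory Set
open Pool.Agent.Helper59.EV (ST rvol dir_le_of_can)

noncomputable section

/-! ### no sheet of full depth at the window `0` -/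

/-- W0: a connected system with a sheet of full depth at the window `0` has at most as many directions as points -/
theorem w0 {D m : ℕ} (hD : 1 ≤ D) (hst : ST D m) {S : Sp} {s : Sys S (m + 1)} (hc : Helper40.EL.ic s 0 = 0)
    (hf : Hf s D 0 1) : H (s.x.dg 1) ≤ h (s.P.dg 1) s.T := by
  obtain ⟨τ, hτ, h1⟩ := lvol_pr s le_rfl one_pos hf (Or.inl one_pos)
  have h2 := Pool.Agent.Helper3.ZM.st_lvol hst (prT s τ hτ)
  have h3 : h ((prT s τ hτ).P.dg 1) (prT s τ hτ).T ≤ h (s.P.dg 1) s.T := h_mono (pr_P_dg s _ _ _ _ 1)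
  obtain ⟨x, hx⟩ := exists_can s D 0
  have hk : IsKap s 0 (Pool.Agent.Helper59.EV.lb x) := hx.2
  have h4 := hk.ic_P le_rfl zero_le_one
  rw [hc] at h4
  have h5 := Pool.Agent.Helper3.ZM.rvol_can s hx
  refine dir_le_of_can hD s hx.1.1 hx.2 ?_
  rw [h5]
  push_cast
  linarith

/-! ### the selected systems -/

/-- the matrix which forgets the coordinate `i` -/
def selM (i : Fin 3) : Matrix (Fin 2) (Fin 3) ℝ := Matrix.of fun j l => if i.succAbove j = l then 1 else 0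

/-- the projection of the system which forgets the coordinate `i` -/
def prI {S : Sp} (s : Sys S 3) (i : Fin 3) : Sys S 2 := prB (selM i) s

/-- thickness exponent of the planks of the projection which are known to `kappa_c` of the big system -/
def lamI {S : Sp} (s : Sys S 3) (i : Fin 3) (c : ℝ) : ℝ := lamP s (prI s i) 1 c

/-- the first window with a sheet of full depth -/
def c0 {S : Sp} (s : Sys S 3) (D : ℕ) : ℝ := sInf {c | 0 ≤ c ∧ Hf s D c 1}

/-- the sheet of full depth at the window `c0` is a graph `z = P_i` over the other coordinates (its derivative in the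
direction `i` is large) -/
def ZDir {S : Sp} (s : Sys S 3) (D : ℕ) (i : Fin 3) : Prop :=
  c0 s D = 1 ∨ HfE s D (Pi.single i 1) (c0 s D) 1

/-- the base `M` (all coordinates except `i`) is flat on a left neighbourhood of the window `c0` -/
def FlatI {S : Sp} (s : Sys S 3) (D : ℕ) (i : Fin 3) : Prop :=
  ∃ c1 : ℝ, 0 ≤ c1 ∧ c1 < c0 s D ∧ ∀ c c', c1 < c → c ≤ c' → c' < c0 s D → lamI s i c' - lamI s i c = c' - c

/-- THE SELECTED SYSTEMS for the lists `G`, `Φ` of functionals: robust, rich, connected, the top level is a left density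
point of the levels at which the point profile has derivative at most `3 - g / 2`, and there is no sheet of full depth
at the window `0` -/
structure Sel4 (G : ℕ → Gg 3) (Φ : ℕ → Fnl 3) (D : ℕ) (g : ℝ) {S : Sp} (s : Sys S 3) : Prop where
  g0 : 0 < g
  rich : Rich s g
  con : Helper40.EL.ic s 0 = 0
  rob : RobA G Φ s
  robD : RobustG (fun _ : Unit => GD 3 D) s
  robE : RobustG (fun i : Fin 3 => GDe 3 D (Pi.single i 1)) s
  robE1 : RobustG (fun i : Fin 3 => GDe 3 1 (Pi.single i 1)) s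
  robL : RobustG (fun i : Fin 3 => GDP (selM i) 1) s
  dens : Tendsto (fun δ : ℝ => volume (Ioo (1 - δ) 1 \ defic s (3 - g / 2)) / ENNReal.ofReal δ) (𝓝[>] 0) (𝓝 0)
  nos : ¬ Hf s D 0 1

/-- robustness for a part of the list -/
theorem robA_sub {m : ℕ} {G G' : ℕ → Gg m} {Φ Φ' : ℕ → Fnl m} {S : Sp} {s : Sys S m} (h : RobA G Φ s)
    (hG : ∀ k, ∃ j, G' k = G j) (hΦ : ∀ k, ∃ j, Φ' k = Φ j) : RobA G' Φ' s where
  p := h.p
  i := h.i
  g := by
    intro k
    obtain ⟨j, hj⟩ := hG k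
    rw [hj]
    exact h.g j
  f := by
    intro k
    obtain ⟨j, hj⟩ := hΦ k
    rw [hj]
    exact h.f j

namespace Sel4

variable {G : ℕ → Gg 3} {Φ : ℕ → Fnl 3} {D : ℕ} {g : ℝ} {S : Sp} {s : Sys S 3}

theorem sub (hs : Sel4 G Φ D g s) {G' : ℕ → Gg 3} {Φ' : ℕ → Fnl 3} (hG : ∀ k, ∃ j, G' k = G j)
    (hΦ : ∀ k, ∃ j, Φ' k = Φ j) : Sel4 G' Φ' D g s := { hs with rob := robA_sub hs.rob hG hΦ }

/-- deficient levels inside `(0, 1)` do not change on events of extensions -/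
theorem _root_.Pool.Agent.Helper52.SL.RobP.defic_im {m : ℕ} {S : Sp} {s : Sys S m}
    (h : Pool.Agent.Helper52.SL.RobP s) {T : Sp} (p : Pj T S)
    (E : ∀ k, (T.F k).Ω → Prop) (hE : 0 < ul (T.pr E)) {b r : ℝ} (hr : r ∈ Ioo (0 : ℝ) 1) :
    r ∈ defic (s.im p E hE) b ↔ r ∈ defic s b := by
  have he : (s.im p E hE).F 0 =ᶠ[𝓝 r] s.F 0 := by
    filter_upwards [Ioo_mem_nhds hr.1 hr.2] with v hv
    exact h.F_eq p E hE le_rfl zero_le_one hv.1.le hv.2.le
  constructor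
  · rintro ⟨y', h1, h2⟩
    exact ⟨y', h1, h2.congr_of_eventuallyEq he.symm⟩
  · rintro ⟨y', h1, h2⟩
    exact ⟨y', h1, h2.congr_of_eventuallyEq he⟩

/-- two systems with the same deficient levels inside `(0, 1)` -/
theorem dens_congr {m : ℕ} {S S' : Sp} {s : Sys S m} {s' : Sys S' m} {b : ℝ}
    (h : ∀ r ∈ Ioo (0 : ℝ) 1, (r ∈ defic s b ↔ r ∈ defic s' b)) {l : ℝ} (hl0 : 0 < l) (hl1 : l ≤ 1)
    (hd : Tendsto (fun δ : ℝ => volume (Ioo (l - δ) l \ defic s b) / ENNReal.ofReal δ) (𝓝[>] 0) (𝓝 0)) :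
    Tendsto (fun δ : ℝ => volume (Ioo (l - δ) l \ defic s' b) / ENNReal.ofReal δ) (𝓝[>] 0) (𝓝 0) := by
  refine hd.congr' ?_
  filter_upwards [Ioo_mem_nhdsGT hl0] with δ hδ
  congr 2
  ext r
  constructor
  · rintro ⟨h1, h2⟩
    exact ⟨h1, fun h3 => h2 ((h r ⟨by linarith [h1.1, hδ.2], by linarith [h1.2]⟩).mpr h3)⟩
  · rintro ⟨h1, h2⟩
    exact ⟨h1, fun h3 => h2 ((h r ⟨by linarith [h1.1, hδ.2], by linarith [h1.2]⟩).mp h3)⟩

/-- sheets of degree `D` are the same on events of extensions -/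
theorem Hf_im (hs : Sel4 G Φ D g s) {T : Sp} (p : Pj T S) (E : ∀ k, (T.F k).Ω → Prop) (hE : 0 < ul (T.pr E))
    (c σ : ℝ) : Hf (s.im p E hE) D c σ ↔ Hf s D c σ := by
  rw [Hf_iff_HH, Hf_iff_HH]
  exact hs.robD.HH_im () p E hE c σ

theorem c0_im (hs : Sel4 G Φ D g s) {T : Sp} (p : Pj T S) (E : ∀ k, (T.F k).Ω → Prop) (hE : 0 < ul (T.pr E)) :
    c0 (s.im p E hE) D = c0 s D := by
  unfold c0
  congr 1
  ext c
  exact and_congr_right fun _ => hs.Hf_im p E hE c 1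

theorem HfE_im (hs : Sel4 G Φ D g s) {T : Sp} (p : Pj T S) (E : ∀ k, (T.F k).Ω → Prop) (hE : 0 < ul (T.pr E))
    (i : Fin 3) (c σ : ℝ) : HfE (s.im p E hE) D (Pi.single i 1) c σ ↔ HfE s D (Pi.single i 1) c σ := by
  rw [HfE_iff_HH, HfE_iff_HH]
  exact hs.robE.HH_im i p E hE c σ

theorem HfE1_im (hs : Sel4 G Φ D g s) {T : Sp} (p : Pj T S) (E : ∀ k, (T.F k).Ω → Prop) (hE : 0 < ul (T.pr E))
    (i : Fin 3) (c σ : ℝ) : HfE (s.im p E hE) 1 (Pi.single i 1) c σ ↔ HfE s 1 (Pi.single i 1) c σ := by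
  rw [HfE_iff_HH, HfE_iff_HH]
  exact hs.robE1.HH_im i p E hE c σ

theorem lamI_im (hs : Sel4 G Φ D g s) {T : Sp} (p : Pj T S) (E : ∀ k, (T.F k).Ω → Prop) (hE : 0 < ul (T.pr E))
    (i : Fin 3) (c : ℝ) : lamI (s.im p E hE) i c = lamI s i c :=
  lamP_im hs.robL (i := i) rfl p E hE c

theorem ZDir_im (hs : Sel4 G Φ D g s) {T : Sp} (p : Pj T S) (E : ∀ k, (T.F k).Ω → Prop) (hE : 0 < ul (T.pr E))
    (i : Fin 3) : ZDir (s.im p E hE) D i ↔ ZDir s D i := by
  unfold ZDir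
  rw [hs.c0_im p E hE, hs.HfE_im p E hE]

theorem FlatI_im (hs : Sel4 G Φ D g s) {T : Sp} (p : Pj T S) (E : ∀ k, (T.F k).Ω → Prop) (hE : 0 < ul (T.pr E))
    (i : Fin 3) : FlatI (s.im p E hE) D i ↔ FlatI s D i := by
  unfold FlatI
  rw [hs.c0_im p E hE]
  simp only [hs.lamI_im p E hE]

/-- CLOSEDNESS under restrictions to events of extensions -/
theorem im (hs : Sel4 G Φ D g s) {T : Sp} (p : Pj T S) (E : ∀ k, (T.F k).Ω → Prop) (hE : 0 < ul (T.pr E)) :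
    Sel4 G Φ D g (s.im p E hE) where
  g0 := hs.g0
  rich := hs.rich.im p E hE
  con := by
    have h1 : Helper40.EL.ic (s.im p E hE) 0 = Helper40.EL.ic s 0 := hs.rob.i 0 le_rfl zero_le_one T p E hE
    rw [h1, hs.con]
  rob := hs.rob.im p E hE
  robD := hs.robD.im p E hE
  robE := hs.robE.im p E hE
  robE1 := hs.robE1.im p E hE
  robL := hs.robL.im p E hE
  dens := dens_congr (fun r hr => (hs.rob.p.defic_im p E hE hr).symm) one_pos le_rfl hs.dens
  nos := fun h => hs.nos ((hs.Hf_im p E hE 0 1).mp h)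

section first
variable (hD : 1 ≤ D)
include hD

theorem Hf_one (s : Sys S 3) : Hf s D 1 1 := HfP_self.mp (HfP_self' (Fac.refl s) hD zero_le_one le_rfl)

theorem c0_le_one (s : Sys S 3) : c0 s D ≤ 1 :=
  csInf_le ⟨0, fun _ h => h.1⟩ ⟨zero_le_one, Hf_one hD s⟩

theorem c0_nonneg (s : Sys S 3) : 0 ≤ c0 s D := le_csInf ⟨1, zero_le_one, Hf_one hD s⟩ fun _ h => h.1

/-- the sheet of full depth at the first window -/
theorem Hf_c0 (s : Sys S 3) : Hf s D (c0 s D) 1 := by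
  refine HfP_self.mp (HfP.right fun c' hc' => ?_)
  obtain ⟨c'', h1, h2⟩ := exists_lt_of_csInf_lt (s := {c | 0 ≤ c ∧ Hf s D c 1}) ⟨1, zero_le_one, Hf_one hD s⟩ hc'
  exact (HfP_self.mpr h1.2).mono_c h2.le

theorem c0_pos (hs : Sel4 G Φ D g s) : 0 < c0 s D := by
  rcases (c0_nonneg hD s).eq_or_lt with h | h
  · exfalso
    have h1 := Hf_c0 hD s
    rw [← h] at h1
    exact hs.nos h1
  · exact h

omit hD in
/-- there are no sheets of full depth at smaller windows -/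
theorem not_Hf {c : ℝ} (h0 : 0 ≤ c) (hc : c < c0 s D) : ¬ Hf s D c 1 := fun h =>
  notMem_of_lt_csInf hc ⟨0, fun _ h => h.1⟩ ⟨h0, h⟩

/-- ORIENTATION -/
theorem exists_zdir (hs : Sel4 G Φ D g s) : ∃ i, ZDir s D i := by
  rcases (c0_le_one hD s).eq_or_lt with h | h
  · exact ⟨0, Or.inl h⟩
  · obtain ⟨i, hi⟩ := exists_dir (c0_nonneg hD s) h h (Hf_c0 hD s)
    exact ⟨i, Or.inr (HfE_iff_HH.mpr (hs.robE.HH_of_pos i hi))⟩

end first

end Sel4

/-! ### the two cases -/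

/-- CASE A: the base is flat on the left of `c0`, and the planks of `kappa_(c0)` are not of full depth -/
def ST_CA : Prop := ∃ D0 : ℕ, ∀ D : ℕ, D0 ≤ D → ∃ (G : ℕ → Gg 3) (Φ : ℕ → Fnl 3) (M : ℝ),
  (∀ q S s, (Φ q).f S s ≤ M) ∧ ∀ (g : ℝ) (S : Sp) (s : Sys S 3), Sel4 G Φ D g s → ∀ i : Fin 3, ZDir s D i →
    lamI s i (c0 s D) < 1 → FlatI s D i → False

/-- CASE B: in every orientation, the planks of `kappa_(c0)` are of full depth or the base is not flat -/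
def ST_CB : Prop := ∃ D0 : ℕ, ∀ D : ℕ, D0 ≤ D → ∃ (G : ℕ → Gg 3) (Φ : ℕ → Fnl 3) (M : ℝ),
  (∀ q S s, (Φ q).f S s ≤ M) ∧ ∀ (g : ℝ) (S : Sp) (s : Sys S 3), Sel4 G Φ D g s → (∃ i : Fin 3, ZDir s D i) →
    (∀ i : Fin 3, ZDir s D i → lamI s i (c0 s D) = 1 ∨ ¬ FlatI s D i) → False

/-- SELECTION for `R^4` -/
theorem exists_sel4 {D : ℕ} (hD : 1 ≤ D) (hst : ST D 2) {S0 : Sp} (s0 : Sys S0 3) (hx : H (s0.x.dg 1) = (3 : ℕ))
    (hP : h (s0.P.dg 1) s0.T < (3 : ℕ)) (G : ℕ → Gg 3) (Φ : ℕ → Fnl 3) (M : ℝ) (hM : ∀ q S s, (Φ q).f S s ≤ M) :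
    ∃ (g : ℝ) (S : Sp) (s : Sys S 3), Sel4 G Φ D g s := by
  classical
  obtain ⟨G', hG0, hG1, hG2, hG3, hG'⟩ : ∃ G' : ℕ → Gg 3, G' 0 = GD 3 D ∧
      (∀ i : Fin 3, G' (1 + i) = GDe 3 D (Pi.single i 1)) ∧ (∀ i : Fin 3, G' (4 + i) = GDe 3 1 (Pi.single i 1)) ∧
      (∀ i : Fin 3, G' (7 + i) = GDP (selM i) 1) ∧ ∀ k, G' (k + 10) = G k := by
    refine ⟨fun k => if k = 0 then GD 3 D else
      if h1 : k - 1 < 3 then GDe 3 D (Pi.single ⟨k - 1, h1⟩ 1) else
      if h2 : k - 4 < 3 then GDe 3 1 (Pi.single ⟨k - 4, h2⟩ 1) else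
      if h3 : k - 7 < 3 then GDP (selM ⟨k - 7, h3⟩) 1 else G (k - 10), rfl, ?_, ?_, ?_, ?_⟩
    · intro i
      fin_cases i <;> rfl
    · intro i
      fin_cases i <;> rfl
    · intro i
      fin_cases i <;> rfl
    · intro k
      have a0 : k + 10 ≠ 0 := by omega
      have a1 : ¬ k + 10 - 1 < 3 := by omega
      have a2 : ¬ k + 10 - 4 < 3 := by omega
      have a3 : ¬ k + 10 - 7 < 3 := by omega
      simp only [a0, a1, a2, a3, if_false, dif_neg, not_false_eq_true, Nat.add_sub_cancel]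
  obtain ⟨th, g, h0, h1, hg, F0, i0, ψ0, φ0, C', hC', hv, hL⟩ := select s0 hx hP G' Φ M hM
  obtain ⟨S1, s1, hs1⟩ := hC'.ne
  obtain ⟨hgood, hval, -⟩ := hv S1 s1 hs1
  have hp1 : max 0 (1 - g / 3) < 1 := max_lt one_pos (by linarith)
  obtain ⟨l, hl, -, -, hd⟩ := hgood.level h0 h1 hg (le_max_left 0 (1 - g / 3)) hp1
    (Q := fun _ => True) (Eventually.of_forall fun _ => trivial)
  have hl0 : 0 < l := lt_of_le_of_lt (le_max_left _ _) hl.1
  have hl1 : l ≤ 1 := hl.2.le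
  have hl3 : 3 * (1 - l) < g := by
    have := lt_of_le_of_lt (le_max_right 0 (1 - g / 3)) hl.1
    linarith
  obtain ⟨F1, i1, ψ1, φ1, C'', hC'', hsub, hv2⟩ := hL fun _ => ⟨l, hl0, hl1⟩
  obtain ⟨S2, s2, hs2⟩ := hC''.ne
  obtain ⟨hgood2, hval2, -⟩ := hv S2 s2 (hsub S2 s2 hs2)
  obtain ⟨-, hrob⟩ := hv2 S2 s2 hs2 0
  have hrob' : RobA G Φ (trn s2 l hl0 hl1) := robA_sub hrob (fun k => ⟨k + 10, (hG' k).symm⟩) fun k => ⟨k, rfl⟩
  have hcon : Helper40.EL.ic (trn s2 l hl0 hl1) 0 = 0 := hgood2.trn_con hl0 hl1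
  have e3 : ((3 : ℕ) : ℝ) = 3 := by norm_num
  refine ⟨g, _, trn s2 l hl0 hl1, ⟨hg, hgood2.trn_rich hl0 hl1, hcon, hrob', ?_, ?_, ?_, ?_, ?_, ?_⟩⟩
  · intro _
    have h5 := hrob.g 0
    rw [hG0] at h5
    exact h5
  · intro i
    have h5 := hrob.g (1 + i)
    rw [hG1 i] at h5
    exact h5
  · intro i
    have h5 := hrob.g (4 + i)
    rw [hG2 i] at h5
    exact h5
  · intro i
    have h5 := hrob.g (7 + i)
    rw [hG3 i] at h5
    exact h5
  · refine dens_trn s2 hl0 hl1 ?_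
    rw [e3] at hd
    refine Sel4.dens_congr (fun r hr => ?_) hl0 hl1 hd
    rw [defic_iff hval hr, defic_iff hval2 hr]
  · intro hf
    have h2 := w0 hD hst hcon hf
    have h3 : (trn s2 l hl0 hl1).lag th < 0 := by
      rw [Sys.lag_eq_F (trn s2 l hl0 hl1) th, F_trn s2 l hl0 hl1 zero_le_one le_rfl,
        F_trn s2 l hl0 hl1 le_rfl zero_le_one, mul_zero, mul_one]
      have h4 := hgood2.lag
      rw [s2.lag_eq_F th] at h4
      have h5 := y_mono s2 hl1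
      have h6 := s2.F_lip_left (r := 0) hl1
      rw [e3] at h6
      have h7 := mul_le_mul_of_nonneg_left h6 h0
      have h8 : s2.F 0 l - th * s2.F l 0 < 0 := by nlinarith
      have h9 : s2.F 0 l / l - th * (s2.F l 0 / l) = (s2.F 0 l - th * s2.F l 0) / l := by ring
      rw [h9]
      exact div_neg_of_neg_of_pos h8 hl0
    have h4 : (trn s2 l hl0 hl1).lag th = h ((trn s2 l hl0 hl1).P.dg 1) (trn s2 l hl0 hl1).T -
      th * H ((trn s2 l hl0 hl1).x.dg 1) := rfl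
    rw [h4] at h3
    have h5 := H_nonneg ((trn s2 l hl0 hl1).x.dg 1)
    nlinarith

/-- ASSEMBLY: `EK 3` from the two cases -/
theorem ek3_of (hst : ∀ D : ℕ, 1 ≤ D → ST D 2) (hA : ST_CA) (hB : ST_CB) : EK 3 := by
  classical
  obtain ⟨DA, hA⟩ := hA
  obtain ⟨DB, hB⟩ := hB
  obtain ⟨D, hDA, hDB, hD1⟩ : ∃ D : ℕ, DA ≤ D ∧ DB ≤ D ∧ 1 ≤ D :=
    ⟨max (max DA DB) 1, (le_max_left _ _).trans (le_max_left _ _), (le_max_right _ _).trans (le_max_left _ _),
      le_max_right _ _⟩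
  obtain ⟨GA, ΦA, MA, hMA, hA⟩ := hA D hDA
  obtain ⟨GB, ΦB, MB, hMB, hB⟩ := hB D hDB
  intro S a x t ht hx
  by_contra hne
  have h2 := (VV.pt a x t).H_dg_le (r := 1) zero_le_one
  rw [mul_one] at h2
  have h5 : h ((ptv a x t).dg 1) (t.dg 1) ≤ ((3 : ℕ) : ℝ) := (h_le_H _ _).trans h2
  have h6 : h ((ptv a x t).dg 1) (t.dg 1) < ((3 : ℕ) : ℝ) := lt_of_le_of_ne h5 hne
  obtain ⟨g, S', s', hs⟩ := exists_sel4 hD1 (hst D hD1) (⟨a, x, t, ht⟩ : Sys S 3) hx h6
    (fun k => if k % 2 = 0 then GA (k / 2) else GB (k / 2)) (fun k => if k % 2 = 0 then ΦA (k / 2) else ΦB (k / 2))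
    (max MA MB) (fun q S s => by
      by_cases hq : q % 2 = 0
      · simp only [hq, if_true]
        exact (hMA _ S s).trans (le_max_left _ _)
      · simp only [hq, if_false]
        exact (hMB _ S s).trans (le_max_right _ _))
  have e1 : ∀ k : ℕ, (2 * k) % 2 = 0 := fun k => by omega
  have e2 : ∀ k : ℕ, (2 * k) / 2 = k := fun k => by omega
  have e3 : ∀ k : ℕ, (2 * k + 1) % 2 = 1 := fun k => by omega
  have e4 : ∀ k : ℕ, (2 * k + 1) / 2 = k := fun k => by omega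
  have hsA : Sel4 GA ΦA D g s' := hs.sub (fun k => ⟨2 * k, by simp only [e1, e2, if_true]⟩)
    (fun k => ⟨2 * k, by simp only [e1, e2, if_true]⟩)
  have hsB : Sel4 GB ΦB D g s' := hs.sub
    (fun k => ⟨2 * k + 1, by simp only [e3, e4, one_ne_zero, if_false]⟩)
    (fun k => ⟨2 * k + 1, by simp only [e3, e4, one_ne_zero, if_false]⟩)
  refine hB g S' s' hsB (Sel4.exists_zdir hD1 hsB) fun i hi => ?_
  by_contra hc
  push Not at hc
  obtain ⟨c1, c2⟩ := hc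
  exact hA g S' s' hsA i hi (lt_of_le_of_ne (lamP_le_one le_rfl _) c1) c2

end

end Pool.Agent.Helper40.NSK
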