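import Pool.Agent.Helper31.EC.Uns

/-!
# NS skeleton, part 1: corners over a flat base (level T)

Everything is in the exact calculus EC of helper31 (functions to full precision `QS S`, entropies of digits).
A flat corner is a space `S` with a height `t`, base lines `(a, x)` in dimension `d`, base point `y = a + t x`, and a
top coordinate `z`, a polynomial of degree `k` along lines: `z = b + ∑ j < k, C j * t ^ (j + 1)`; the coefficients `C`
are functions of the base line (ns_notes_40c sect. 2; straight lines: `k = 1`).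
`CorH c N ρ ε` are the hypotheses with the error `ε`, `Sh c K δ ε`: `z` has a polynomial sheet of degree `K` and
precision `1 - δ` which is a function of the line up to `ε` and blind for the base up to `ε`.
-/

set_option autoImplicit false

namespace Pool.Agent.Helper40.NSK

open Pool.Agent.Helper69.RK Pool.Agent.Helper31.EC Pool.Agent.Helper31.EC.Sp

noncomputable section

/-- data of a corner over a flat base, lines of degree `k` -/
structure FC (S : Sp) (d k : ℕ) where
  t : QS S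
  a : Fin d → QS S
  x : Fin d → QS S
  b : QS S
  C : Fin k → QS S

namespace FC

variable {S : Sp} {d k : ℕ} (c : FC S d k)

/-- base coordinates -/
def y (i : Fin d) : QS S := c.a i + c.t * c.x i

/-- top coordinate -/
def z : QS S := c.b + ∑ j : Fin k, c.C j * c.t ^ (j.1 + 1)

/-- the point of the flat base `(t, y)` -/
def q : Fin (d + 1) → QS S := Fin.cons c.t c.y

/-- the direction `(1, x)` of the base line -/
def v : Fin (d + 1) → QS S := Fin.cons 1 c.x

/-- the point -/
def fB : Fin (d + 1) ⊕ Unit → QS S := Sum.elim c.q fun _ => c.z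

/-- the direction -/
def iX : S.L := QS.vd c.x 1

/-- the base line -/
def iL : S.L := QS.vd c.a 1 ⊔ QS.vd c.x 1

/-- the slopes -/
def iF : S.L := QS.vd c.C 1

/-- the whole line -/
def iA : S.L := c.iL ⊔ (QS.dg c.b 1 ⊔ c.iF)

/-- the point of the base -/
def iQ : S.L := QS.vd c.y 1 ⊔ QS.dg c.t 1

/-- the point -/
def iB : S.L := c.iQ ⊔ QS.dg c.z 1

end FC

/-- `z` is unsaturated over `A` up to `ε`, in every extension, on every event of probability at least `ε` -/
def UnE {S : Sp} (z : QS S) (A : S.L) (ρ ε : ℝ) : Prop :=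
  ∀ (T : Sp) (p : Pj T S) (E : ∀ k, (T.F k).Ω → Prop) (hE : 0 < ul (T.pr E)), ε ≤ ul (T.pr E) →
    ∀ a b : ℝ, 0 ≤ a → a ≤ b → b ≤ 1 →
    h (restL E hE (p.map (QS.dg z b))) (restL E hE (p.map (QS.dg z a ⊔ A))) ≤ (1 - ρ) * (b - a) + ε

/-- a function is smaller than `2 ^ (-δ n)`, `δ > ε`, with probability at most `ε` -/
def Big {S : Sp} (f : QS S) (ε : ℝ) : Prop :=
  ∀ δ : ℝ, ε < δ → ul (S.pr fun k ω => |TR.ev (QS.mk_surj f).choose k ω| ≤ S.dl δ k) ≤ ε

/-- hypotheses of a flat corner, up to `ε` -/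
structure CorH {S : Sp} {d k : ℕ} (c : FC S d k) (N : ℕ) (ρ ε : ℝ) : Prop where
  /-- heights are uniform given the line -/
  ht : 1 - ε ≤ h (QS.dg c.t 1) c.iA
  /-- slopes are functions of the base line -/
  hF : h c.iF c.iL ≤ ε
  /-- directions are independent of the point -/
  hi : I c.iX (QS.vd c.y 1 ⊔ QS.dg c.z 1) (QS.dg c.t 1) ≤ ε
  /-- the base is full -/
  hy : d - ε ≤ h (QS.vd c.y 1) (QS.dg c.t 1)
  /-- the top coordinate is unsaturated -/
  un : UnE c.z c.iQ ρ ε
  /-- there are `N + 1` copies of the line through the point such that any `d + 1` of them span -/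
  st : ∃ w : QS.CQ S c.fB N, ∀ e : Fin (d + 1) → Fin (N + 1), Function.Injective e →
    Big (Matrix.of fun i j => (w.p (e i)).qs (c.v j)).det ε

/-- there is a polynomial sheet label of degree `K` and precision `1 - δ`, a function of the line and blind for the
base up to `ε` -/
def Sh {S : Sp} {d k : ℕ} (c : FC S d k) (K : ℕ) (δ ε : ℝ) : Prop :=
  ∃ (W : Sp) (p : Pj W S) (V : W.L) (f : MvPolynomial (Fin (d + 1)) (QS W)), f ∈ QS.PK V ∧ f.totalDegree ≤ K ∧
    h V (p.map c.iA) ≤ ε ∧ I V (p.map c.iQ) ⊥ ≤ ε ∧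
    p.qs c.z - MvPolynomial.eval (fun i => p.qs (c.q i)) f ∈ QS.Id W (1 - δ)

/-- **FLAT THEOREM, exact form** (50b, 76): exact flat corners have exact sheets -/
def ST_FLAT (d k K N : ℕ) : Prop := ∀ (S : Sp) (c : FC S d k) (ρ : ℝ), 0 < ρ → CorH c N ρ 0 → Sh c K 0 0

/-- **FLAT THEOREM, approximate form** (from the exact form by a diagonal) -/
def ST_FLATE (d k K N : ℕ) : Prop := ∀ ρ δ ε : ℝ, 0 < ρ → 0 < δ → 0 < ε → ∃ ε₀ : ℝ, 0 < ε₀ ∧
  ∀ (S : Sp) (c : FC S d k), CorH c N ρ ε₀ → Sh c K δ ε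

/-- **DIAG**: the diagonal of flat corners with errors tending to `0` and without sheets is an exact flat corner
without sheets -/
def ST_DIAG (d k K N : ℕ) : Prop := ∀ ρ δ ε : ℝ, 0 < ρ → 0 < δ → 0 < ε →
  (∀ ε₀ : ℝ, 0 < ε₀ → ∃ (S : Sp) (c : FC S d k), CorH c N ρ ε₀ ∧ ¬ Sh c K δ ε) →
  ∃ (S : Sp) (c : FC S d k), CorH c N ρ 0 ∧ ¬ Sh c K 0 0

theorem flate_of (d k K N : ℕ) (h1 : ST_FLAT d k K N) (h2 : ST_DIAG d k K N) : ST_FLATE d k K N := by
  intro ρ δ ε hρ hδ hε
  by_contra hcon
  push Not at hcon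
  obtain ⟨S, c, hc, hn⟩ := h2 ρ δ ε hρ hδ hε fun ε₀ h0 => hcon ε₀ h0
  exact hn (h1 S c ρ hρ hc)

end

end Pool.Agent.Helper40.NSK
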