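import Pool.Agent.Helper42.NS.Hfb
import Pool.Agent.Helper3.PR.Tj

/-! The gauge of forms of degree at most `D` whose conormal is large in a given direction `e`; every sheet is large in
one of the coordinate directions. -/

set_option autoImplicit false

namespace Pool.Agent.Helper40.NSK

open Finset Filter Topology Matrix Pool.Agent.Helper69.RK Pool.Agent.Helper31.EC Pool.Agent.Helper31.EC.Sp
open Pool.Agent.Helper40.EL Pool.Agent.Helper52.KP Pool.Agent.Helper89.LX Pool.Agent.Helper3.LF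
open Pool.Agent.Helper42.NS Pool.Agent.Helper3.PR Pool.Agent.Helper48.NS

noncomputable section

variable {m : ℕ}

/-- the gauge of polynomials of degree at most `D` with derivatives in the direction `e` -/
def GDe (m D : ℕ) (e : Fin m → ℝ) : Gg m :=
  { GD m D with gam := fun n A a x t => e ⬝ᵥ (Jf (2 ^ (-(1 * n))) A (pl a x t) *ᵥ e) }

/-- the gauge of the coordinate direction `i` -/
abbrev GDi (m D : ℕ) (i : Fin m) : Gg m := GDe m D (Pi.single i 1)

variable {S : Sp}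

/-- `H(c,σ)` with a derivative of size `2^(σ n)` in the direction `e` -/
def HfE (s : Sys S m) (D : ℕ) (e : Fin m → ℝ) (c σ : ℝ) : Prop :=
  ∃ x : ∀ k, FD (S.F k) (Mon (m + 1) D), (gau s D).Ad (cA s c) (cB s) x ∧
    ∀ η : ℝ, 0 < η → Tendsto (fun k => (x k).l.T.pb (fun ω => ¬ 2 ^ (2 * (σ - η) * (S.F k).n) ≤
      e ⬝ᵥ (Jf (S.dl 1 k) ((x k).g ω) (ptf s k ((x k).l.p.π ω)) *ᵥ e))) UF (𝓝 0)

/-- a label with form as a label with two forms -/
def toFDe {s : Sys S m} {D : ℕ} {e : Fin m → ℝ} {k : ℕ} (f : FFm (GDe m D e) (s.fin k)) :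
    FD (S.F k) (Mon (m + 1) D) where
  l := f.l
  g := f.A
  g' := f.A
  meas := fun ω ω' a b c d => ⟨f.hA ω ω' a b c d, f.hA ω ω' a b c d⟩

/-- a label with two forms as a label with form -/
def ofFDe {s : Sys S m} {D : ℕ} {e : Fin m → ℝ} {k : ℕ} (x : FD (S.F k) (Mon (m + 1) D))
    (h : ∀ ω, x.l.T.μ ω ≠ 0 → Cpd (2 ^ ((2 * (D : ℝ) + 1 + 1) * (S.F k).n)) (x.g ω)) : FFm (GDe m D e) (s.fin k) where
  l := x.l
  A := x.g
  hA := fun ω ω' a b c d => (x.meas ω ω' a b c d).1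
  hc := h

/-- labels with forms of `GDe` from admissible forms -/
theorem exists_LFm {s : Sys S m} {D : ℕ} (e : Fin m → ℝ) {c : ℝ} {x : ∀ k, FD (S.F k) (Mon (m + 1) D)}
    (hx : (gau s D).Ad (cA s c) (cB s) x) : ∃ f : LFm (GDe m D e) s,
      (∀ᶠ k in UF, ∃ hk, f k = ofFDe (x k) hk) ∧ f.lab.DM (pA s c) (pB s) ∧ f.Bounds := by
  classical
  set f : LFm (GDe m D e) s := fun k =>
    if hk : ∀ ω, (x k).l.T.μ ω ≠ 0 → Cpd (2 ^ ((2 * (D : ℝ) + 1 + 1) * (S.F k).n)) ((x k).g ω) then ofFDe (x k) hk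
    else FFm.triv (GDe m D e) (s.fin k) with hf
  have hcp : ∀ᶠ k in UF, ∀ ω, (x k).l.T.μ ω ≠ 0 → Cpd (2 ^ ((2 * (D : ℝ) + 1 + 1) * (S.F k).n)) ((x k).g ω) := by
    filter_upwards [hx 1 one_pos] with k hk ω hω
    exact (hk.2.2.1 ω hω).1
  have hfk : ∀ᶠ k in UF, ∃ hk, f k = ofFDe (x k) hk := by
    filter_upwards [hcp] with k hk
    exact ⟨hk, by rw [hf]; exact dif_pos hk⟩
  have hlk : ∀ A : Part S, (∀ η : ℝ, 0 < η → ∀ᶠ k in UF, (x k).l.leak (A k) ≤ η * (S.F k).n) →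
      Nul S (fun k => (f.lab k).leak (A k)) := by
    intro A hA
    show Tendsto (fun k => (f.lab k).leak (A k) / (S.F k).n) UF (𝓝 0)
    rw [Metric.tendsto_nhds]
    intro e' he
    filter_upwards [hfk, hA (e' / 2) (by linarith)] with k ⟨hk, h1⟩ h2
    have h3 : (f.lab k).leak (A k) = (x k).l.leak (A k) := by
      show (f k).l.leak (A k) = _
      rw [h1]; rfl
    have hn := (S.F k).pos
    rw [Real.dist_eq, sub_zero, h3, abs_of_nonneg (div_nonneg (FLab.leak_nonneg _ _) hn.le), div_lt_iff₀ hn]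
    nlinarith
  refine ⟨f, hfk, ⟨hlk _ fun η hη => ?_, hlk _ fun η hη => ?_⟩, fun e' he => ?_⟩
  · filter_upwards [hx η hη] with k hk using hk.1
  · filter_upwards [hx η hη] with k hk using hk.2.1
  · filter_upwards [hfk, hx e' he] with k ⟨hk, h1⟩ h2
    rw [h1]
    exact pb_of_compl h2.2.2.2.1

theorem HH_of_HfE {s : Sys S m} {D : ℕ} {e : Fin m → ℝ} {c σ : ℝ} (h : HfE s D e c σ) : HH (GDe m D e) s c σ := by
  obtain ⟨x, hx, hl⟩ := h
  obtain ⟨f, hfk, hf1, hf2⟩ := exists_LFm e hx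
  refine ⟨f, hf1, hf2, fun e' he => ?_⟩
  have h3 := (hl e' he).eventually (gt_mem_nhds he)
  filter_upwards [hfk, h3] with k ⟨hk, h1⟩ h2
  rw [h1]
  exact pb_of_compl h2.le

theorem HfE_of_HH {s : Sys S m} {D : ℕ} {e : Fin m → ℝ} {c σ : ℝ} (h : HH (GDe m D e) s c σ) : HfE s D e c σ := by
  obtain ⟨f, hf, hb, hl⟩ := h
  refine ⟨fun k => toFDe (f k), fun η hη => ?_, fun e' he => ?_⟩
  · filter_upwards [hf.1.eventually (gt_mem_nhds hη), hf.2.eventually (gt_mem_nhds hη), hb η hη] with k a b d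
    rw [div_lt_iff₀ (S.F k).pos] at a b
    exact ⟨a.le, b.le, fun ω hω => ⟨(f k).hc ω hω, (f k).hc ω hω⟩, pb_compl_le d, pb_compl_le d⟩
  · rw [Metric.tendsto_nhds]
    intro ε hε
    have he2 : 0 < min e' (ε / 2) := lt_min he (by linarith)
    filter_upwards [hl _ he2] with k hk
    rw [Real.dist_eq, sub_zero, abs_of_nonneg (FSp.pb_nonneg _ _)]
    have h1 := (f k).gp_anti (show 2 * (σ - e') ≤ 2 * (σ - min e' (ε / 2)) by
      have := min_le_left e' (ε / 2)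
      linarith)
    have h2 : (toFDe (f k)).l.T.pb (fun ω => ¬ 2 ^ (2 * (σ - e') * (S.F k).n) ≤
        e ⬝ᵥ (Jf (S.dl 1 k) ((toFDe (f k)).g ω) (ptf s k ((toFDe (f k)).l.p.π ω)) *ᵥ e)) ≤ min e' (ε / 2) :=
      pb_compl_le (hk.trans h1)
    have := min_le_right e' (ε / 2)
    linarith

/-- THE BRIDGE -/
theorem HfE_iff_HH {s : Sys S m} {D : ℕ} {e : Fin m → ℝ} {c σ : ℝ} : HfE s D e c σ ↔ HH (GDe m D e) s c σ :=
  ⟨HH_of_HfE, HfE_of_HH⟩

/-- the trace of `Jf` -/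
theorem trJ_eq {D : ℕ} (r : ℝ) (A : Matrix (Mon (m + 1) D) (Mon (m + 1) D) ℝ) (p : Fin (m + 1) → ℝ) :
    trJ r A p = ∑ i : Fin m, (Pi.single i (1 : ℝ) : Fin m → ℝ) ⬝ᵥ (Jf r A p *ᵥ Pi.single i 1) := by
  unfold trJ
  refine Finset.sum_congr rfl fun i _ => ?_
  rw [single_dotProduct, Matrix.mulVec_single_one, one_mul]
  exact (Jf_apply r A p i i).symm

/-- probability of a finite union -/
theorem pb_exists (F : FSp) {ι : Type} (t : Finset ι) (E : ι → F.Ω → Prop) :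
    F.pb (fun ω => ∃ i ∈ t, E i ω) ≤ ∑ i ∈ t, F.pb (E i) := by
  classical
  induction t using Finset.induction_on with
  | empty =>
    rw [Finset.sum_empty]
    unfold FSp.pb mass
    refine (Finset.sum_nonpos fun ω _ => ?_)
    rw [res_neg]
    rintro ⟨i, hi, -⟩
    exact absurd hi (Finset.notMem_empty i)
  | insert a t ha ih =>
    rw [Finset.sum_insert ha]
    have h1 : F.pb (fun ω => ∃ i ∈ insert a t, E i ω) ≤ F.pb (fun ω => E a ω ∨ ∃ i ∈ t, E i ω) := by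
      refine FSp.pb_mono _ fun ω _ ⟨i, hi, h⟩ => ?_
      rcases Finset.mem_insert.mp hi with rfl | hi
      · exact Or.inl h
      · exact Or.inr ⟨i, hi, h⟩
    exact h1.trans ((Pool.Agent.Helper89.LX.pb_or _ _ _).trans (add_le_add le_rfl ih))

/-- EVERY SHEET IS LARGE IN A COORDINATE DIRECTION, with positive probability -/
theorem exists_dir {s : Sys S m} {D : ℕ} {c σ : ℝ} (h0 : 0 ≤ c) (h1 : c < 1) (hcσ : c < σ) (hf : Hf s D c σ) :
    ∃ i : Fin m, 0 < psi (GDi m D i) s c σ := by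
  obtain ⟨x, hx, -⟩ := exists_can s D c
  have ht := fun η hη => trJ_typ s h0 h1 hf (Or.inl hcσ) hx η hη
  have hσ : 0 < σ := lt_of_le_of_lt h0 hcσ
  obtain ⟨q, hq⟩ : ∃ q : ℝ, q = 1 / ((m : ℝ) + 2) := ⟨_, rfl⟩
  have hq0 : 0 < q := by rw [hq]; positivity
  have hqm : (m : ℝ) * q < 1 := by
    rw [hq, mul_one_div, div_lt_one (by positivity)]
    linarith
  obtain ⟨Q, hQ⟩ : ∃ Q : Fin m → ℝ → ℕ → ℝ, Q = fun i η k => (x k).l.T.pb (fun ω =>
    2 ^ (2 * (σ - η) * (S.F k).n) ≤ (Pi.single i (1 : ℝ) : Fin m → ℝ) ⬝ᵥ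
      (Jf (S.dl 1 k) ((x k).g ω) (ptf s k ((x k).l.p.π ω)) *ᵥ Pi.single i 1)) := ⟨_, rfl⟩
  have hmono : ∀ i η η' k, η ≤ η' → Q i η k ≤ Q i η' k := by
    intro i η η' k hη
    rw [hQ]
    refine FSp.pb_mono _ fun ω _ hω => le_trans ?_ hω
    apply Real.rpow_le_rpow_of_exponent_le (by norm_num)
    have := (S.F k).pos
    nlinarith
  have key : ∀ η : ℝ, 0 < η → η < σ → ∃ i, ∀ᶠ k in UF, q ≤ Q i η k := by
    intro η hη hησ
    by_contra hne
    have h2 : ∀ᶠ k in UF, ∀ i, ¬ q ≤ Q i η k := by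
      rw [Filter.eventually_all]
      intro i
      exact UF_not fun h => hne ⟨i, h⟩
    have h3 : ∀ᶠ k in UF, (1 : ℝ) + m * 2 ^ (2 * (σ - η) * (S.F k).n) < 2 ^ (2 * (σ - η / 2) * (S.F k).n) := by
      have t1 : Tendsto (fun k => (2 : ℝ) ^ (η * (S.F k).n)) UF atTop := by
        have := S.lim
        refine (tendsto_rpow_atTop_of_base_gt_one 2 (by norm_num)).comp ?_
        exact Tendsto.const_mul_atTop hη this
      filter_upwards [t1.eventually_gt_atTop ((m : ℝ) + 1)] with k hk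
      have hn := (S.F k).pos
      have h4 : (1 : ℝ) ≤ 2 ^ (2 * (σ - η) * (S.F k).n) := Real.one_le_rpow (by norm_num) (by
        have : 0 < σ - η := by linarith
        positivity)
      have h5 : (2 : ℝ) ^ (2 * (σ - η / 2) * (S.F k).n) = 2 ^ (η * (S.F k).n) * 2 ^ (2 * (σ - η) * (S.F k).n) := by
        rw [← Real.rpow_add (by norm_num)]
        congr 1
        ring
      rw [h5]
      nlinarith
    have h4 := (ht (η / 2) (by linarith)).eventually (gt_mem_nhds (show (0 : ℝ) < 1 - m * q by linarith))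
    obtain ⟨k, k1, k2, k3⟩ := (h2.and (h3.and h4)).exists
    have h5 : (1 : ℝ) ≤ (x k).l.T.pb (fun ω => ¬ 2 ^ (2 * (σ - η / 2) * (S.F k).n) ≤
        1 + trJ (S.dl 1 k) ((x k).g ω) (ptf s k ((x k).l.p.π ω))) + ∑ i, Q i η k := by
      have h7 := (x k).l.T.pb_add_compl (fun _ => True)
      have h8 : (x k).l.T.pb (fun _ => ¬ True) = 0 := by
        refine le_antisymm ?_ (FSp.pb_nonneg _ _)
        unfold FSp.pb mass
        refine (Finset.sum_nonpos fun ω _ => ?_)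
        rw [res_neg (x k).l.T.μ (fun _ => ¬ True) ω (not_not.mpr trivial)]
      have h6 : (x k).l.T.pb (fun _ => True) ≤ (x k).l.T.pb (fun ω => (¬ 2 ^ (2 * (σ - η / 2) * (S.F k).n) ≤
        1 + trJ (S.dl 1 k) ((x k).g ω) (ptf s k ((x k).l.p.π ω))) ∨ ∃ i : Fin m,
          2 ^ (2 * (σ - η) * (S.F k).n) ≤ (Pi.single i (1 : ℝ) : Fin m → ℝ) ⬝ᵥ
      (Jf (S.dl 1 k) ((x k).g ω) (ptf s k ((x k).l.p.π ω)) *ᵥ Pi.single i 1)) := by
        refine FSp.pb_mono _ fun ω _ _ => ?_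
        by_contra hc
        push Not at hc
        obtain ⟨c1, c2⟩ := hc
        rw [trJ_eq] at c1
        have c3 : ∑ i : Fin m, (Pi.single i (1 : ℝ) : Fin m → ℝ) ⬝ᵥ
            (Jf (S.dl 1 k) ((x k).g ω) (ptf s k ((x k).l.p.π ω)) *ᵥ Pi.single i 1) ≤
              m * 2 ^ (2 * (σ - η) * (S.F k).n) := by
          refine (Finset.sum_le_card_nsmul _ _ _ fun i _ => (c2 i).le).trans (le_of_eq ?_)
          rw [nsmul_eq_mul, Finset.card_univ, Fintype.card_fin]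
        linarith
      have h9 : (x k).l.T.pb (fun _ => True) = 1 := by linarith
      rw [h9] at h6
      refine h6.trans ((Pool.Agent.Helper89.LX.pb_or _ _ _).trans (add_le_add le_rfl ?_))
      rw [hQ]
      refine le_trans ?_ (pb_exists _ Finset.univ _)
      exact FSp.pb_mono _ fun ω _ ⟨i, hi⟩ => ⟨i, Finset.mem_univ i, hi⟩
    have k3' : (x k).l.T.pb (fun ω => ¬ 2 ^ (2 * (σ - η / 2) * (S.F k).n) ≤
        1 + trJ (S.dl 1 k) ((x k).g ω) (ptf s k ((x k).l.p.π ω))) < 1 - m * q := k3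
    have h6 : ∑ i, Q i η k ≤ m * q := by
      refine (Finset.sum_le_card_nsmul _ _ q fun i _ => (not_le.mp (k1 i)).le).trans (le_of_eq ?_)
      rw [nsmul_eq_mul, Finset.card_univ, Fintype.card_fin]
    linarith
  have hi : ∃ i, ∀ η : ℝ, 0 < η → ∀ᶠ k in UF, q ≤ Q i η k := by
    by_contra hne
    have hne' : ∀ i, ∃ η : ℝ, 0 < η ∧ ¬ ∀ᶠ k in UF, q ≤ Q i η k := by
      intro i
      by_contra hi
      refine hne ⟨i, fun η hη => ?_⟩
      by_contra h
      exact hi ⟨η, hη, h⟩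
    choose η hη hη2 using hne'
    obtain ⟨b, hb0, hb1, hb2⟩ : ∃ b : ℝ, 0 < b ∧ b < σ ∧ ∀ i, b ≤ η i := by
      rcases isEmpty_or_nonempty (Fin m) with he | he
      · exact ⟨σ / 2, by linarith, by linarith, fun i => he.elim i⟩
      · obtain ⟨i0, hi0⟩ := Finite.exists_min η
        exact ⟨min (σ / 2) (η i0), lt_min (by linarith) (hη i0), lt_of_le_of_lt (min_le_left _ _) (by linarith),
          fun i => (min_le_right _ _).trans (hi0 i)⟩
    obtain ⟨i, hi⟩ := key b hb0 hb1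
    apply hη2 i
    filter_upwards [hi] with k hk using hk.trans (hmono i b (η i) k (hb2 i))
  obtain ⟨i, hi⟩ := hi
  refine ⟨i, lt_of_lt_of_le hq0 ?_⟩
  rw [← mem_psiS_iff, mem_psiS_iff_lab]
  obtain ⟨f, hfk, hf1, hf2⟩ := exists_LFm (Pi.single i (1 : ℝ)) hx.1
  refine ⟨f, hf1, hf2, fun η hη => ?_⟩
  filter_upwards [hfk, hi η hη] with k ⟨hk, e1⟩ h2
  rw [e1]
  rw [hQ] at h2
  have h3 : q - η ≤ q := by linarith
  exact h3.trans h2

end

end Pool.Agent.Helper40.NSK
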